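import Mathlib

/-! Waiter can win the Client-Waiter game on a hypergraph that is not 2-colourable. -/

namespace Pool.Agent.Results.MP_ca6fba_co.NotTwoColourable

/-- `WaiterWins E U C`: in the Client-Waiter game on the hypergraph with edge set `E`, Waiter wins
from the position in which `U` is the set of unclaimed vertices and `C` is the set of the vertices
claimed by Client. Waiter offers exactly two unclaimed vertices in each round, Client claims one of
them and Waiter the other; a single leftover vertex goes to Client. -/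
inductive WaiterWins {V : Type} [DecidableEq V] (E : Finset (Finset V)) :
    Finset V → Finset V → Prop
  | done (C : Finset V) (h : ∀ e ∈ E, ¬ e ⊆ C) : WaiterWins E ∅ C
  | last (v : V) (C : Finset V) (h : ∀ e ∈ E, ¬ e ⊆ insert v C) : WaiterWins E {v} C
  | offer (U C : Finset V) (x y : V) (hx : x ∈ U) (hy : y ∈ U) (hxy : x ≠ y)
      (h1 : WaiterWins E (U \ {x, y}) (insert x C))
      (h2 : WaiterWins E (U \ {x, y}) (insert y C)) : WaiterWins E U C

/-- `H` is 2-colourable: some map to two colours has no monochromatic edge. -/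
def TwoColourable {V : Type} (E : Finset (Finset V)) : Prop :=
  ∃ c : V → Fin 2, ∀ e ∈ E, ∃ u ∈ e, ∃ w ∈ e, c u ≠ c w

/-- The sets that Client can end up with. -/
def outs : Finset (Finset (Fin 8)) :=
  {{6, 1, 2, 4}, {6, 1, 2, 5}, {6, 1, 3, 4}, {6, 1, 3, 5},
   {6, 0, 2, 3}, {6, 0, 2, 5}, {6, 0, 4, 3}, {6, 0, 4, 5},
   {7, 2, 0, 1}, {7, 2, 0, 3}, {7, 2, 4, 1}, {7, 2, 4, 3},
   {7, 5, 0, 1}, {7, 5, 0, 4}, {7, 5, 3, 1}, {7, 5, 3, 4}}

/-- The edges: all 4-element sets other than the sets in `outs`. -/
def edges : Finset (Finset (Fin 8)) := (Finset.univ.powersetCard 4) \ outs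

theorem leaf (C : Finset (Fin 8)) (hc : C.card = 4) (hC : C ∈ outs) :
    ∀ e ∈ edges, ¬ e ⊆ C := by
  intro e he hsub
  rw [edges, Finset.mem_sdiff, Finset.mem_powersetCard] at he
  have : e = C := Finset.eq_of_subset_of_card_le hsub (by rw [hc, he.1.2])
  exact he.2 (this ▸ hC)

theorem wins_of {U C : Finset (Fin 8)} (x y : Fin 8) (hx : x ∈ U) (hy : y ∈ U) (hxy : x ≠ y)
    {U' C1 C2 : Finset (Fin 8)} (hU : U \ {x, y} = U') (h1' : insert x C = C1)
    (h2' : insert y C = C2) (h1 : WaiterWins edges U' C1) (h2 : WaiterWins edges U' C2) :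
    WaiterWins edges U C := by
  subst hU; subst h1'; subst h2'
  exact WaiterWins.offer U C x y hx hy hxy h1 h2

theorem done_of {C : Finset (Fin 8)} (hc : C.card = 4) (hC : C ∈ outs) :
    WaiterWins edges ∅ C := WaiterWins.done C (leaf C hc hC)

/-- The last two rounds: the pairs `a,b` and `c,d` are offered in this order. -/
theorem two_rounds {C : Finset (Fin 8)} (a b c d : Fin 8)
    (hab : a ≠ b) (hcd : c ≠ d) (hc : c ≠ a ∧ c ≠ b) (hd : d ≠ a ∧ d ≠ b)
    (h1 : (insert c (insert a C)).card = 4 ∧ insert c (insert a C) ∈ outs)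
    (h2 : (insert d (insert a C)).card = 4 ∧ insert d (insert a C) ∈ outs)
    (h3 : (insert c (insert b C)).card = 4 ∧ insert c (insert b C) ∈ outs)
    (h4 : (insert d (insert b C)).card = 4 ∧ insert d (insert b C) ∈ outs) :
    WaiterWins edges {a, b, c, d} C := by
  have hU : ({a, b, c, d} : Finset (Fin 8)) \ {a, b} = {c, d} := by
    ext z
    simp only [Finset.mem_sdiff, Finset.mem_insert, Finset.mem_singleton]
    constructor
    · tauto
    · rintro (rfl | rfl)
      · exact ⟨by tauto, by tauto⟩
      · exact ⟨by tauto, by tauto⟩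
  have hU2 : ({c, d} : Finset (Fin 8)) \ {c, d} = ∅ := Finset.sdiff_self _
  refine wins_of a b (by simp) (by simp) hab hU rfl rfl ?_ ?_
  · exact wins_of c d (by simp) (by simp) hcd hU2 rfl rfl (done_of h1.1 h1.2)
      (done_of h2.1 h2.2)
  · exact wins_of c d (by simp) (by simp) hcd hU2 rfl rfl (done_of h3.1 h3.2)
      (done_of h4.1 h4.2)

theorem waiterWins : WaiterWins edges Finset.univ ∅ := by
  refine wins_of 6 7 (by simp) (by simp) (by decide)
    (show Finset.univ \ {6, 7} = ({0, 1, 2, 3, 4, 5} : Finset (Fin 8)) by decide) rfl rfl ?_ ?_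
  · refine wins_of 0 1 (by decide) (by decide) (by decide)
      (show ({0, 1, 2, 3, 4, 5} : Finset (Fin 8)) \ {0, 1} = {2, 4, 3, 5} by decide) rfl rfl ?_ ?_
    · exact two_rounds 2 4 3 5 (by decide) (by decide) (by decide) (by decide) (by decide)
        (by decide) (by decide) (by decide)
    · have h : ({2, 4, 3, 5} : Finset (Fin 8)) = {2, 3, 4, 5} := by decide
      rw [h]
      exact two_rounds 2 3 4 5 (by decide) (by decide) (by decide) (by decide) (by decide)
        (by decide) (by decide) (by decide)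
  · refine wins_of 2 5 (by decide) (by decide) (by decide)
      (show ({0, 1, 2, 3, 4, 5} : Finset (Fin 8)) \ {2, 5} = {0, 4, 1, 3} by decide) rfl rfl ?_ ?_
    · exact two_rounds 0 4 1 3 (by decide) (by decide) (by decide) (by decide) (by decide)
        (by decide) (by decide) (by decide)
    · have h : ({0, 4, 1, 3} : Finset (Fin 8)) = {0, 3, 1, 4} := by decide
      rw [h]
      exact two_rounds 0 3 1 4 (by decide) (by decide) (by decide) (by decide) (by decide)
        (by decide) (by decide) (by decide)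

set_option maxRecDepth 100000 in
theorem no_split : ∀ A : Finset (Fin 8), ∃ e ∈ edges, e ⊆ A ∨ e ⊆ Aᶜ := by
  decide +kernel

theorem not_colourable : ¬ TwoColourable edges := by
  rintro ⟨c, hc⟩
  obtain ⟨e, he, hsub | hsub⟩ := no_split (Finset.univ.filter (fun v => c v = 0))
  · obtain ⟨u, hu, w, hw, huw⟩ := hc e he
    have h1 := hsub hu
    have h2 := hsub hw
    rw [Finset.mem_filter] at h1 h2
    exact huw (h1.2.trans h2.2.symm)
  · obtain ⟨u, hu, w, hw, huw⟩ := hc e he
    have h1 := hsub hu
    have h2 := hsub hw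
    rw [Finset.mem_compl, Finset.mem_filter] at h1 h2
    have h3 : c u ≠ 0 := fun h => h1 ⟨Finset.mem_univ _, h⟩
    have h4 : c w ≠ 0 := fun h => h2 ⟨Finset.mem_univ _, h⟩
    apply huw
    have h5 : c u = 1 := by omega
    have h6 : c w = 1 := by omega
    rw [h5, h6]

/-- There is a hypergraph on eight vertices, with all edges of size 4, that is not 2-colourable and
on which Waiter wins the Client-Waiter game. -/
theorem result : ∃ E : Finset (Finset (Fin 8)), (∀ e ∈ E, e.card = 4) ∧
    WaiterWins E Finset.univ ∅ ∧ ¬ TwoColourable E := by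
  refine ⟨edges, fun e he => ?_, waiterWins, not_colourable⟩
  rw [edges, Finset.mem_sdiff, Finset.mem_powersetCard] at he
  exact he.1.2

end Pool.Agent.Results.MP_ca6fba_co.NotTwoColourable
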